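import Mathlib
import Pool.Agent.H12.Defs
import Pool.Agent.H24.QD.CardA
import Pool.Agent.H24.QD.Final
import Pool.Agent.H24.QD.AdmUp

/-!
# The number of parameter triples with `v ≤ X` of symmetric designs has exact order `X`

Let `A(X)` be the set of triples `(v,k,l)` of positive integers with `k < v ≤ X` and
`l (v-1) = k (k-1)`, and `D(X)` the set of those for which a symmetric `(v,k,l)`-design exists.
Then `c X log X ≤ |A(X)| ≤ C X log X`, while `X - 2 ≤ |D(X)| ≤ C X`.
-/

namespace Pool.Agent.Results.MP_3038d1_co.ExactTripleCount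

open Pool.Agent.H12 Pool.Agent.H24.QD

theorem result :
    (∀ X, (admissibleTriples X).Finite) ∧ (∀ X, designTriples X ⊆ admissibleTriples X) ∧
    ∃ C c : ℝ, 0 < C ∧ 0 < c ∧ ∀ X : ℕ, 16 ≤ X →
      (X:ℝ) - 2 ≤ ((designTriples X).ncard : ℝ) ∧
      ((designTriples X).ncard : ℝ) ≤ C * X ∧
      c * (X * Real.log X) ≤ ((admissibleTriples X).ncard : ℝ) ∧
      ((admissibleTriples X).ncard : ℝ) ≤ C * (X * Real.log X) ∧
      c / Real.log X ≤ ((designTriples X).ncard : ℝ) / ((admissibleTriples X).ncard : ℝ) ∧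
      ((designTriples X).ncard : ℝ) / ((admissibleTriples X).ncard : ℝ) ≤ C / Real.log X := by
  refine ⟨density_zero.1, density_zero.2.1, ?_⟩
  obtain ⟨C, c, hC, hc, h⟩ := all_triples (triples_of cardA)
  refine ⟨max (max C 2) (C / c), min c (1/4), lt_max_of_lt_left (lt_max_of_lt_left hC),
    lt_min hc (by norm_num), ?_⟩
  intro X hX
  obtain ⟨h1, h2, h3⟩ := h X hX
  have h4 := adm_upper X (by omega)
  have hX16 : (16:ℝ) ≤ X := by exact_mod_cast hX
  have hlog : 0 < Real.log X := Real.log_pos (by linarith)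
  have hXl : 0 < X * Real.log X := by positivity
  have hD0 : 0 < ((designTriples X).ncard : ℝ) := by linarith
  have hA0 : 0 < ((admissibleTriples X).ncard : ℝ) := lt_of_lt_of_le (by positivity) h3
  refine ⟨h1, h2.trans ?_, le_trans ?_ h3, h4.trans ?_, ?_, ?_⟩
  · exact mul_le_mul_of_nonneg_right ((le_max_left _ _).trans (le_max_left _ _)) (by linarith)
  · exact mul_le_mul_of_nonneg_right (min_le_left _ _) hXl.le
  · exact mul_le_mul_of_nonneg_right ((le_max_right _ _).trans (le_max_left _ _)) hXl.le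
  · rw [div_le_div_iff₀ hlog hA0]
    have e1 : min c (1/4) ≤ 1/4 := min_le_right _ _
    have e2 : min c (1/4) * ((admissibleTriples X).ncard : ℝ) ≤ 1/4 * (2 * (X * Real.log X)) := by
      have := mul_le_mul e1 h4 hA0.le (by norm_num)
      linarith
    have e3 : (1/2 : ℝ) * X ≤ ((designTriples X).ncard : ℝ) := by linarith
    have e4 := mul_le_mul_of_nonneg_right e3 hlog.le
    linarith
  · rw [div_le_div_iff₀ hA0 hlog]
    have e1 : C / c ≤ max (max C 2) (C / c) := le_max_right _ _
    have e2 := mul_le_mul_of_nonneg_right h2 hlog.le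
    have e3 : C / c * (c * (X * Real.log X)) = C * X * Real.log X := by
      field_simp
    have e4 : C / c * (c * (X * Real.log X)) ≤ C / c * ((admissibleTriples X).ncard : ℝ) :=
      mul_le_mul_of_nonneg_left h3 (by positivity)
    have e5 := mul_le_mul_of_nonneg_right e1 hA0.le
    linarith

end Pool.Agent.Results.MP_3038d1_co.ExactTripleCount
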