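import Mathlib
import Pool.Agent.H70.SymDes.Defs
import Pool.Agent.H24.QD.CardB
import Pool.Agent.H24.QD.Final

/-!
# Orders of symmetric designs: power of `log X` saved

With `δ = 1 - (1 + log (log 2)) / log 2 = 0.0860...`: at most `C X / (log X)^δ` of the integers
`v ≤ X` not congruent to `3` mod `4` are orders of symmetric designs with `1 < k < v - 1`, and for
all but `C X / A + C X / (log X)^δ` of the integers `v ≤ X` every symmetric `(v,k,l)`-design
with `1 < k < v - 1` has `v` congruent to `3` mod `4` and ratio `(k-1)/(v-1)` or `k/(v-1)` equal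
to `s^2/(s^2+t^2)` with `s^2 + t^2 ≤ A`.

The definitions are in `Pool.Agent.H12.Defs` (`SymmetricDesignExists`) and in
`Pool.Agent.H70.SymDes.Defs` (the others).
-/

namespace Pool.Agent.Results.MP_3038d1_co.FewOrders

open Pool.Agent.H12 Pool.Agent.H70.SymDes Pool.Agent.H24.QD

theorem result : ∃ C : ℝ, 0 < C ∧
    (∀ X : ℕ, 2 ≤ X → ((nontrivialOrders X).ncard : ℝ) ≤
      C * X / Real.log X ^ (1 - (1 + Real.log (Real.log 2)) / Real.log 2)) ∧
    (∀ A X : ℕ, 1 ≤ A → 2 ≤ X → ((exceptionalOrders A X).ncard : ℝ) ≤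
      C * X / A + C * X / Real.log X ^ (1 - (1 + Real.log (Real.log 2)) / Real.log 2)) ∧
    0.08 < 1 - (1 + Real.log (Real.log 2)) / Real.log 2 := by
  have hB := orders_of cardB
  obtain ⟨C2, hC2, h2⟩ := nontrivial_of hB
  obtain ⟨C1, hC1, h1⟩ := hB
  refine ⟨max C1 C2, lt_max_of_lt_left hC1, ?_, ?_, ?_⟩
  · intro X hX
    refine (h2 X hX).trans ?_
    have hX2 : (2:ℝ) ≤ X := by exact_mod_cast hX
    have hlogX : 0 < Real.log X := Real.log_pos (by linarith)
    have hlde : 0 < Real.log X ^ de := Real.rpow_pos_of_pos hlogX _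
    apply div_le_div_of_nonneg_right _ hlde.le
    exact mul_le_mul_of_nonneg_right (le_max_right _ _) (by linarith)
  · intro A X hA hX
    refine (h1 A X hA hX).trans ?_
    have hX2 : (2:ℝ) ≤ X := by exact_mod_cast hX
    have hA1 : (1:ℝ) ≤ A := by exact_mod_cast hA
    have hlogX : 0 < Real.log X := Real.log_pos (by linarith)
    have hlde : 0 < Real.log X ^ de := Real.rpow_pos_of_pos hlogX _
    refine add_le_add ?_ ?_
    · apply div_le_div_of_nonneg_right _ (by linarith)
      exact mul_le_mul_of_nonneg_right (le_max_left _ _) (by linarith)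
    · apply div_le_div_of_nonneg_right _ hlde.le
      exact mul_le_mul_of_nonneg_right (le_max_left _ _) (by linarith)
  · have e2 : (0.6931471803 : ℝ) < Real.log 2 := Real.log_two_gt_d9
    have e3 : Real.log 2 < (0.6931471808 : ℝ) := Real.log_two_lt_d9
    have h0 : 0 < Real.log 2 := by linarith
    have e4 : Real.log (Real.log 2) < -0.36231 := by
      rw [Real.log_lt_iff_lt_exp h0]
      have e5 := Real.one_sub_div_pow_le_exp_neg (n := 32) (t := 0.36231) (by norm_num)
      refine lt_of_lt_of_le ?_ e5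
      refine e3.trans ?_
      norm_num
    have e6 : (1 + Real.log (Real.log 2)) / Real.log 2 < 0.92 := by
      rw [div_lt_iff₀ h0]
      nlinarith
    linarith

end Pool.Agent.Results.MP_3038d1_co.FewOrders
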