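import Mathlib
import Pool.Agent.H12.Defs
import Pool.Agent.H10.HD.Had
import Pool.Agent.H10.HD.DesA
import Pool.Agent.H10.HD.DesB
import Pool.Agent.H10.HE.Tow

/-!
# Symmetric designs from Hadamard matrices of order `2^t q` with almost bounded `t`

Let `T_0 = 1`, `T_(k+1) = 2^(T_k)`.  There is a constant `C` such that for every `k`, every
`1 ≤ q ≤ T_k` and every `t ≥ C 512^k` the number `n = 2^t q` is divisible by four and there are a
Hadamard matrix of order `n`, a symmetric `(n - 1, n/2 - 1, n/4 - 1)`-design and a symmetric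
`(n^2, n^2/2 - n/2, n^2/4 - n/2)`-design.  So `t ≥ C 512^(log* q)` suffices; known: `t ≥ c log q`
(Seberry; Craigen; Livinskyi).  In particular for `x ≤ T_k` at least `x / 2^(C 512^k)` of the
numbers `m ≤ x` are such that a symmetric `(4m-1, 2m-1, m-1)`-design exists.
-/

set_option autoImplicit false

namespace Pool.Agent.Results.MP_3038d1_co.HadamardLogStar

open Matrix

theorem result : ∃ C : ℕ, 0 < C ∧ ∀ k : ℕ,
    (∀ q t : ℕ, 1 ≤ q → q ≤ (fun x => 2 ^ x)^[k] 1 → C * 512 ^ k ≤ t →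
      ∃ m : ℕ, 4 * m = 2 ^ t * q ∧
        Pool.Agent.H12.SymmetricDesignExists (4 * m - 1) (2 * m - 1) (m - 1) ∧
        Pool.Agent.H12.SymmetricDesignExists (16 * m ^ 2) (8 * m ^ 2 - 2 * m) (4 * m ^ 2 - 2 * m) ∧
        ∃ H : Matrix (Fin (4 * m)) (Fin (4 * m)) ℤ,
          (∀ i j, H i j = 1 ∨ H i j = -1) ∧
          H * Hᵀ = ((4 * m : ℕ) : ℤ) • (1 : Matrix (Fin (4 * m)) (Fin (4 * m)) ℤ)) ∧
    (∀ x : ℕ, x ≤ (fun x => 2 ^ x)^[k] 1 →
      x / 2 ^ (C * 512 ^ k) ≤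
        {m : ℕ | m ≤ x ∧
          Pool.Agent.H12.SymmetricDesignExists (4 * m - 1) (2 * m - 1) (m - 1)}.ncard) := by
  obtain ⟨C, hC, h⟩ := H10.HE.star_all
  have main : ∀ k q t : ℕ, 1 ≤ q → q ≤ (fun x => 2 ^ x)^[k] 1 → (2 * C) * 512 ^ k ≤ t →
      ∃ m : ℕ, 4 * m = 2 ^ t * q ∧
        Pool.Agent.H12.SymmetricDesignExists (4 * m - 1) (2 * m - 1) (m - 1) ∧
        Pool.Agent.H12.SymmetricDesignExists (16 * m ^ 2) (8 * m ^ 2 - 2 * m) (4 * m ^ 2 - 2 * m) ∧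
        ∃ H : Matrix (Fin (4 * m)) (Fin (4 * m)) ℤ,
          (∀ i j, H i j = 1 ∨ H i j = -1) ∧
          H * Hᵀ = ((4 * m : ℕ) : ℤ) • (1 : Matrix (Fin (4 * m)) (Fin (4 * m)) ℤ) := by
    intro k q t hq hqk ht
    have h512 : 1 ≤ C * 512 ^ k := Nat.mul_pos hC (by positivity)
    have ht' : 2 * (C * 512 ^ k) ≤ t := by
      rw [← mul_assoc]
      exact ht
    have hlen : H10.HD.Len t q := h k q t hq hqk (by omega)
    have ht2 : 2 ≤ t := by omega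
    have hHad := hlen.hadamard (by omega)
    have hm : 4 * (2 ^ (t - 2) * q) = 2 ^ t * q := by
      obtain ⟨s, rfl⟩ : ∃ s, t = s + 2 := ⟨t - 2, by omega⟩
      rw [show s + 2 - 2 = s by omega, pow_add]
      ring
    have hm1 : 1 ≤ 2 ^ (t - 2) * q := Nat.mul_pos (by positivity) (by omega)
    obtain ⟨m, hmdef⟩ : ∃ m, m = 2 ^ (t - 2) * q := ⟨_, rfl⟩
    rw [← hmdef] at hm hm1
    have key : ∀ N : ℕ, N = 2 ^ t * q → ∃ H : Matrix (Fin N) (Fin N) ℤ,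
        (∀ i j, H i j = 1 ∨ H i j = -1) ∧
        H * Hᵀ = ((N : ℕ) : ℤ) • (1 : Matrix (Fin N) (Fin N) ℤ) := by
      rintro N rfl
      exact hHad
    obtain ⟨H₁, hpm₁, hH₁⟩ := key (4 * m) hm
    obtain ⟨H₂, hpm₂, hH₂⟩ := key (2 * (2 * m)) (by rw [← hm]; ring)
    refine ⟨m, hm, H10.HD.design_of_hadamard m hm1 H₁ hpm₁ hH₁, ?_, H₁, hpm₁, hH₁⟩
    have h2 := H10.HD.menon_of_hadamard (2 * m) (by omega) H₂ hpm₂ hH₂
    have e1 : 4 * (2 * m) ^ 2 = 16 * m ^ 2 := by ring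
    have e2 : 2 * (2 * m) ^ 2 - 2 * m = 8 * m ^ 2 - 2 * m := by
      rw [show 2 * (2 * m) ^ 2 = 8 * m ^ 2 by ring]
    have e3 : (2 * m) ^ 2 - 2 * m = 4 * m ^ 2 - 2 * m := by
      rw [show (2 * m) ^ 2 = 4 * m ^ 2 by ring]
    rw [e1, e2, e3] at h2
    exact h2
  refine ⟨2 * C, by omega, fun k => ⟨main k, ?_⟩⟩
  intro x hx
  set t := 2 * C * 512 ^ k with ht
  have ht2 : 2 ≤ t := by
    have h512 : 1 ≤ C * 512 ^ k := Nat.mul_pos hC (by positivity)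
    have : t = 2 * (C * 512 ^ k) := by rw [ht]; ring
    omega
  set A : Set ℕ := {m : ℕ | m ≤ x ∧
    Pool.Agent.H12.SymmetricDesignExists (4 * m - 1) (2 * m - 1) (m - 1)} with hA
  have hfin : A.Finite := (Set.finite_Iic x).subset (fun m hm => hm.1)
  -- the numbers `2^(t-2) q`, `1 ≤ q ≤ x / 2^t`
  have hsub : (fun q => 2 ^ (t - 2) * q) '' (Set.Icc 1 (x / 2 ^ t)) ⊆ A := by
    rintro m ⟨q, ⟨hq1, hq2⟩, rfl⟩
    have hqx : 2 ^ t * q ≤ x := by
      calc 2 ^ t * q ≤ 2 ^ t * (x / 2 ^ t) := Nat.mul_le_mul_left _ hq2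
        _ ≤ x := Nat.mul_div_le x (2 ^ t)
    have hqx' : q ≤ x := le_trans (Nat.le_mul_of_pos_left q (by positivity)) hqx
    obtain ⟨m, hm, hdes, -, -⟩ := main k q t hq1 (hqx'.trans hx) (le_of_eq ht.symm)
    have hm' : m = 2 ^ (t - 2) * q := by
      have h1 : 2 ^ t = 4 * 2 ^ (t - 2) := by
        obtain ⟨s, hs⟩ : ∃ s, t = s + 2 := ⟨t - 2, by omega⟩
        rw [hs, show s + 2 - 2 = s by omega, pow_add]
        ring
      rw [h1, mul_assoc] at hm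
      exact Nat.eq_of_mul_eq_mul_left (by norm_num) hm
    rw [hm'] at hdes hm
    refine ⟨?_, hdes⟩
    show 2 ^ (t - 2) * q ≤ x
    omega
  calc x / 2 ^ t = (Set.Icc 1 (x / 2 ^ t)).ncard := by
        rw [← Finset.coe_Icc, Set.ncard_coe_finset]
        simp
    _ = ((fun q => 2 ^ (t - 2) * q) '' (Set.Icc 1 (x / 2 ^ t))).ncard := by
        rw [Set.ncard_image_of_injective]
        intro a b hab
        exact Nat.eq_of_mul_eq_mul_left (by positivity) hab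
    _ ≤ A.ncard := Set.ncard_le_ncard hsub hfin

end Pool.Agent.Results.MP_3038d1_co.HadamardLogStar
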