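import Mathlib
import Pool.Agent.H24.AN.Defs
import Pool.Agent.H73.TR.Defs
import Pool.Agent.H73.TR.Fin
import Pool.Agent.H73.TK.Defs
import Pool.Agent.H73.TK.Main
import Pool.Agent.H73.TK.Incl
import Pool.Agent.H73.RT.FKS
import Pool.Agent.H73.RT.Rate

/-!
# Point-transitive symmetric designs and difference sets: how many numbers of points occur

Call a symmetric `(v,k,l)`-design nontrivial if `1 < k < v - 1`.  The number of `v ≤ X` for which
some nontrivial symmetric design on `v` points has, for every odd prime `q` which divides `v` but
whose square does not, an automorphism of order a power of `q` with an even number of fixed points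
is at most `C X / log X`.  Examples are the `v` for which some nontrivial symmetric design on `v`
points has a solvable point-transitive group of automorphisms, and the orders of the groups which
contain nontrivial difference sets; there are at least `c X / log X` of each kind.

The number of `v ≤ X` for which some nontrivial symmetric design on `v` points has an automorphism
of order `q^j`, `j ≥ 1`, `q` a prime divisor of `v`, with an even number of fixed points (for
example none), is at most `C X / (log X)^d`, where `d = 1 - (1 + log log 2) / log 2 > 0.086`.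
Examples are the `v = m q^a` (`q` prime, `a ≥ 1`, `m < q`) for which some nontrivial symmetric
design on `v` points has an arbitrary point-transitive group of automorphisms.  If every transitive
permutation group of degree `n > 1` has a fixed-point-free element of prime power order (this is
the theorem of Fein, Kantor and Schacher, which uses the classification of the finite simple
groups), then the same holds for all `v`.

The definitions are in `Pool.Agent.H96.Sing.Defs` (`IsSymmetricDesign`, `IsAut`,
`IsDifferenceSet`), in `Pool.Agent.H73.TK.Defs` (`richPowOrders`), in `Pool.Agent.H24.AN.Defs`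
(`differenceSetOrders`, `transitiveOrders`), in `Pool.Agent.H73.RT.FKS`
(`PrimePowerDerangements`) and in `Pool.Agent.H73.TR.Defs` (the others).
-/

namespace Pool.Agent.Results.MP_3038d1_co.TransitiveDesigns

open Pool.Agent.H24.AN Pool.Agent.H73.TR Pool.Agent.H73.TK Pool.Agent.H73.RT

theorem result :
    (∃ C : ℝ, 0 < C ∧ ∀ X : ℕ, 2 ≤ X → ((richPowOrders X).ncard : ℝ) ≤ C * X / Real.log X) ∧
    (∀ X, (richPowOrders X).Finite) ∧
    (∀ X, solvableTransitiveOrders X ⊆ richPowOrders X) ∧
    (∀ X, differenceSetOrders X ⊆ richPowOrders X) ∧
    (∀ X, transitiveOrders X ⊆ richPowOrders X) ∧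
    (∃ (c : ℝ) (X0 : ℕ), 0 < c ∧ ∀ X : ℕ, X0 ≤ X →
      c * X / Real.log X ≤ ((solvableTransitiveOrders X).ncard : ℝ)) ∧
    (∃ (c : ℝ) (X0 : ℕ), 0 < c ∧ ∀ X : ℕ, X0 ≤ X →
      c * X / Real.log X ≤ ((differenceSetOrders X).ncard : ℝ)) ∧
    (∃ C : ℝ, 0 < C ∧ ∀ X : ℕ, 2 ≤ X → ((evenPowOrders X).ncard : ℝ) ≤
      C * X / Real.log X ^ (1 - (1 + Real.log (Real.log 2)) / Real.log 2)) ∧
    (0.086 : ℝ) < 1 - (1 + Real.log (Real.log 2)) / Real.log 2 ∧
    (∀ X, (evenPowOrders X).Finite) ∧
    (∀ X, {v ∈ pointTransitiveOrders X | TopPrimePower v} ⊆ evenPowOrders X) ∧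
    (PrimePowerDerangements → ∀ X, pointTransitiveOrders X ⊆ evenPowOrders X) :=
  ⟨upper, richPow_finite, solvable_rich, ds_richPow, tr_richPow, lower_solvable,
    Pool.Agent.H24.KS.lower, evenPow_rate, de_gt, evenPow_finite, large_sub, pointTransitive_sub⟩

end Pool.Agent.Results.MP_3038d1_co.TransitiveDesigns
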